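import Pool.Agent.COV.StmtsB
import Pool.Agent.Helper80_KDT.CNB

/-!
Squad COV (MP_160b6c_nt), row GHI: good position is generic. The lemmas on the points of a Mumford
vector are those of row CNB of squad KDT.
-/

set_option autoImplicit false

namespace Pool.Agent.COV.H64

open Polynomial Pool.Agent.KDT.Z Pool.Agent.KDT.H80

theorem ghi : GhiStmt := by
  classical
  intro F _ _ _ f J _ th cl hJ c t ht
  obtain ⟨a₁, a₂, hs, hp, he1, he2⟩ := roots_pA t
  obtain ⟨z₁, hz1a, hz1b⟩ : ∃ z : Pt f, z.a = a₁ ∧ z.b = (pB t).eval a₁ :=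
    ⟨⟨a₁, (pB t).eval a₁, on_eval ht he1⟩, rfl, rfl⟩
  obtain ⟨z₂, hz2a, hz2b⟩ : ∃ z : Pt f, z.a = a₂ ∧ z.b = (pB t).eval a₂ :=
    ⟨⟨a₂, (pB t).eval a₂, on_eval ht he2⟩, rfl, rfl⟩
  -- a common root
  have hroot : ∀ (q : Fin 4 → F), On f q → ∀ (z : Pt f),
      (pA q).eval z.a = 0 → ∀ h : J, c + h = cl q →
      Tht th ((c - th z) + h) ∨ Tht th ((c - th z.neg) + h) := by
    intro q hq z hqa h hch
    have hsq := on_eval hq hqa
    have hsq' : ((pB q).eval z.a) ^ 2 = z.b ^ 2 := by rw [hsq, z.on]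
    rcases sq_eq_sq_iff_eq_or_eq_neg.1 hsq' with h1 | h1
    · obtain ⟨w, hw⟩ := split_at hJ hq z hqa h1
      refine Or.inl (Or.inr ⟨w, ?_⟩)
      have : (c - th z) + h = (c + h) - th z := by abel
      rw [this, hch, hw]
      abel
    · obtain ⟨w, hw⟩ := split_at hJ hq z.neg hqa h1
      refine Or.inr (Or.inr ⟨w, ?_⟩)
      have : (c - th z.neg) + h = (c + h) - th z.neg := by abel
      rw [this, hch, hw]
      abel
  refine ⟨{c, c - th z₁, c - th z₁.neg, c - th z₂, c - th z₂.neg, c + cl t}, ?_⟩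
  intro h hC
  have m0 : ¬ Tht th (c + h) := hC c (by simp)
  have m1 : ¬ Tht th ((c - th z₁) + h) := hC _ (by simp)
  have m2 : ¬ Tht th ((c - th z₁.neg) + h) := hC _ (by simp)
  have m3 : ¬ Tht th ((c - th z₂) + h) := hC _ (by simp)
  have m4 : ¬ Tht th ((c - th z₂.neg) + h) := hC _ (by simp)
  have m5 : ¬ Tht th ((c + cl t) + h) := hC _ (by simp)
  rcases hJ.cover (c + h) with h0 | ⟨z, hz⟩ | ⟨q, hq, hch⟩
  · exact absurd (Or.inl h0) m0
  · exact absurd (Or.inr ⟨z, hz⟩) m0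
  · have hrr : rr q t ≠ 0 := by
      intro hrr
      rw [rr_eq q hs hp] at hrr
      rcases mul_eq_zero.1 hrr with h1 | h1
      · rw [← hz1a] at h1
        rcases hroot q hq z₁ h1 h hch with h2 | h2
        · exact m1 h2
        · exact m2 h2
      · rw [← hz2a] at h1
        rcases hroot q hq z₂ h1 h hch with h2 | h2
        · exact m3 h2
        · exact m4 h2
    refine ⟨q, hq, hch, hrr, fun hro => m5 ?_⟩
    have e : (c + cl t) + h = cl q + cl t := by
      rw [← hch]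
      abel
    rw [e]
    exact hJ.exc q t hq ht hrr hro

end Pool.Agent.COV.H64
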